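import Pool.Agent.Q113.XU.Stm
import Pool.Agent.Q257.EM.TUP
import Pool.Agent.Q257.EM.EEL

/-!
# Project XU (helper113): job CAA, by helper166
-/

set_option autoImplicit false

namespace Pool.Agent.Q166.XU

open Finset Pool.Agent.Q54.EM Pool.Agent.Q113.XM Pool.Agent.Q113.XU

theorem t_CAA : S_CRF → S_CAA := by
  intro hCRF k r g hk hLMW hRC hg hg1
  obtain ⟨r0, r1, hrc⟩ := hRC
  have hk0 : (0 : ℝ) < k := by
    have : 0 < k := by omega
    exact_mod_cast this
  have hk1 : (1 : ℝ) ≤ k := by
    have : 1 ≤ k := by omega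
    exact_mod_cast this
  have h1g : 0 < 1 - g := by linarith
  have h1r : 0 < 1 - r := by linarith
  have hrk : 0 < r ^ k := pow_pos r0 k
  have hkr : (k : ℝ) * (r / k) = r := by field_simp
  have hcrt : Crt k (r / k) := by
    refine ⟨by positivity, by rw [hkr]; exact r1, ?_⟩
    rw [hkr]
    exact hrc
  obtain ⟨-, hmv, -⟩ := hCRF k hk (r / k) hcrt
  have e1 : 0 < min 1 ((1 - r) * (1 - g)) := lt_min one_pos (by positivity)
  have e2 : 0 < min (min 1 ((1 - r) * (1 - g))) (r ^ k * g) := lt_min e1 (by positivity)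
  refine ⟨min (min 1 ((1 - r) * (1 - g))) (r ^ k * g), e2, ?_⟩
  intro ι _ q x hq hqs hx hgx hm
  set κ : ℝ := min (min 1 ((1 - r) * (1 - g))) (r ^ k * g) with hκ
  have hκ1 : κ ≤ 1 := (min_le_left _ _).trans (min_le_left _ _)
  have hκ2 : κ ≤ (1 - r) * (1 - g) := (min_le_left _ _).trans (min_le_right _ _)
  have hκ3 : κ ≤ r ^ k * g := min_le_right _ _
  set m : ℝ := mu q x with hmdef
  obtain ⟨hm1, hm2⟩ := abs_le.mp hm
  rcases le_total 1 m with h1 | h1
  · -- m ≥ 1
    have h2 : EE q x k (fun s => if (k : ℝ) ≤ s then 1 else 0) ≤ 1 := by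
      calc EE q x k (fun s => if (k : ℝ) ≤ s then 1 else 0) ≤ EE q x k (fun _ => 1) := by
            refine (Pool.Agent.Q257.EM.eel ι q x k).2.2.2.1 hq hx _ _ fun s _ => ?_
            show (if (k : ℝ) ≤ s then (1 : ℝ) else 0) ≤ 1
            split_ifs <;> norm_num
        _ = 1 := (Pool.Agent.Q257.EM.eel ι q x k).2.2.2.2.1 hqs 1
    have h3 : 1 + (k : ℝ) * (m - 1) ≤ m ^ k := by
      have := one_add_mul_le_pow (a := m - 1) (by linarith) k
      have e : 1 + (m - 1) = m := by ring
      rw [e] at this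
      exact this
    rw [abs_of_nonneg (by linarith)]
    have h4 : κ * (m - 1) ≤ k * (m - 1) := mul_le_mul_of_nonneg_right (by linarith) (by linarith)
    linarith
  · -- m ≤ 1
    set m2 : ℝ := (m - g) / (1 - g) with hm2def
    have hm2' : m2 = 1 - (1 - m) / (1 - g) := by
      rw [hm2def]
      field_simp
      ring
    have hrm : r ≤ m2 := by
      rw [hm2']
      have : (1 - m) / (1 - g) ≤ 1 - r := by
        rw [div_le_iff₀ h1g]
        linarith
      linarith
    have hm21 : m2 ≤ 1 := by
      rw [hm2']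
      have : 0 ≤ (1 - m) / (1 - g) := div_nonneg (by linarith) h1g.le
      linarith
    have hm20 : 0 ≤ m2 := by linarith
    -- the new values
    let y : ι → ℝ := fun i => max (x i - g) 0 / (1 - g) / k
    have hy0 : ∀ i, 0 ≤ y i := fun i =>
      div_nonneg (div_nonneg (le_max_right _ _) h1g.le) hk0.le
    have hmy : mu q y = m2 / k := by
      have h5 : ∀ i, q i * y i = (q i * x i - g * q i) / (1 - g) / k := by
        intro i
        by_cases hi : q i = 0
        · rw [hi]; ring
        · have h6 := hgx i hi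
          show q i * (max (x i - g) 0 / (1 - g) / k) = _
          rw [max_eq_left (by linarith)]
          ring
      unfold mu
      rw [Finset.sum_congr rfl fun i _ => h5 i, ← Finset.sum_div, ← Finset.sum_div,
        Finset.sum_sub_distrib, ← Finset.mul_sum, hqs, hm2def, hmdef, mul_one]
      rfl
    have hU : UP q y k 1 ≤ m2 ^ k := by
      have h6 : (k : ℝ) * (m2 / k) = m2 := by field_simp
      have h7 := hLMW ι q y (m2 / k) ⟨hq, hqs, hy0⟩ hmy.le (by positivity) (by rw [h6]; exact hm21)
      have h8 : r / k ≤ m2 / k := div_le_div_of_nonneg_right hrm hk0.le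
      rw [hmv (m2 / k) h8 (by rw [h6]; exact hm21), h6] at h7
      exact h7
    have hE : EE q x k (fun s => if (k : ℝ) ≤ s then 1 else 0) ≤ UP q y k 1 := by
      unfold UP
      rw [Pool.Agent.Q257.EM.tup ι q x k, Pool.Agent.Q257.EM.tup ι q y k]
      unfold TE
      refine Finset.sum_le_sum fun v _ => ?_
      refine mul_le_mul_of_nonneg_left ?_ (Finset.prod_nonneg fun i _ => hq (v i))
      show (if (k : ℝ) ≤ ∑ i, x (v i) then (1 : ℝ) else 0) ≤ if 1 ≤ ∑ i, y (v i) then (1 : ℝ) else 0
      by_cases hs : (k : ℝ) ≤ ∑ i, x (v i)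
      · have h9 : 1 ≤ ∑ i, y (v i) := by
          have h10 : ∀ i, (x (v i) - g) / (1 - g) / k ≤ y (v i) := by
            intro i
            show (x (v i) - g) / (1 - g) / k ≤ max (x (v i) - g) 0 / (1 - g) / k
            exact div_le_div_of_nonneg_right (div_le_div_of_nonneg_right (le_max_left _ _) h1g.le)
              hk0.le
          have h11 : ∑ i : Fin k, (x (v i) - g) / (1 - g) / k = (∑ i, x (v i) - k * g) / (1 - g) / k := by
            rw [← Finset.sum_div, ← Finset.sum_div, Finset.sum_sub_distrib, Finset.sum_const,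
              Finset.card_univ, Fintype.card_fin, nsmul_eq_mul]
          have h12 : 1 ≤ (∑ i, x (v i) - k * g) / (1 - g) / k := by
            rw [le_div_iff₀ hk0, le_div_iff₀ h1g]
            linarith
          calc (1 : ℝ) ≤ ∑ i : Fin k, (x (v i) - g) / (1 - g) / k := by rw [h11]; exact h12
            _ ≤ _ := Finset.sum_le_sum fun i _ => h10 i
        rw [if_pos hs, if_pos h9]
      · rw [if_neg hs]
        split_ifs <;> norm_num
    have hfin : m2 ^ k ≤ m ^ k - κ * |m - 1| := by
      rw [abs_of_nonpos (by linarith)]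
      have h13 : m - m2 = g * (1 - m) / (1 - g) := by
        rw [hm2def]
        field_simp
        ring
      have h14 : g * (1 - m) ≤ m - m2 := by
        rw [h13, le_div_iff₀ h1g]
        nlinarith [mul_nonneg hg.le (by linarith : (0 : ℝ) ≤ 1 - m)]
      have h15 : m2 ≤ m := by
        have : 0 ≤ g * (1 - m) := mul_nonneg hg.le (by linarith)
        linarith
      have h16 : m2 ^ k + r ^ k * (m - m2) ≤ m ^ k := by
        obtain ⟨j, rfl⟩ : ∃ j, k = j + 1 := ⟨k - 1, by omega⟩
        have h17 : r ^ (j + 1) ≤ m ^ j := by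
          calc r ^ (j + 1) ≤ r ^ j := pow_le_pow_of_le_one r0.le r1.le (Nat.le_succ j)
            _ ≤ m ^ j := pow_le_pow_left₀ r0.le (by linarith) j
        have h18 : m2 ^ j ≤ m ^ j := pow_le_pow_left₀ hm20 h15 j
        calc m2 ^ (j + 1) + r ^ (j + 1) * (m - m2) ≤ m ^ j * m2 + m ^ j * (m - m2) := by
              have h19 : m2 ^ (j + 1) ≤ m ^ j * m2 := by
                rw [pow_succ]
                exact mul_le_mul_of_nonneg_right h18 hm20
              have h20 : r ^ (j + 1) * (m - m2) ≤ m ^ j * (m - m2) :=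
                mul_le_mul_of_nonneg_right h17 (by linarith)
              linarith
          _ = m ^ (j + 1) := by ring
      have h21 : κ * (1 - m) ≤ r ^ k * (m - m2) := by
        calc κ * (1 - m) ≤ r ^ k * g * (1 - m) := mul_le_mul_of_nonneg_right hκ3 (by linarith)
          _ = r ^ k * (g * (1 - m)) := by ring
          _ ≤ r ^ k * (m - m2) := mul_le_mul_of_nonneg_left h14 hrk.le
      linarith
    exact hE.trans (hU.trans hfin)

end Pool.Agent.Q166.XU
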