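import Pool.Agent.Q113.XU.Stm
import Pool.Agent.Q176.EM.CS

/-!
# Project XU (helper113): job LBD, by helper166
-/

set_option autoImplicit false

namespace Pool.Agent.Q166.XU

open Pool.Agent.Q54.EM Pool.Agent.Q113.XU

theorem t_LBD : S_LBD := by
  intro k r hk hRC
  obtain ⟨a0, -, -, -, hT, -, -, hlog, -⟩ := Pool.Agent.Q176.EM.cs k r hk hRC
  have r0 : 0 < r := hRC.1
  have r1 : r < 1 := hRC.2.1
  have k0 : (0 : ℝ) < k := by
    have : (6 : ℝ) ≤ k := by exact_mod_cast hk
    linarith
  have hT0 : 0 < 1 - r ^ k := by linarith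
  have ha1 : r / k < 1 := by
    rw [div_lt_one k0]
    have : (6 : ℝ) ≤ k := by exact_mod_cast hk
    linarith
  -- `ff (r/k) > 1`
  have hff : 1 < ff (r / k) := by
    unfold ff
    rw [lt_div_iff₀ a0, one_mul]
    have h1 : Real.log (1 - r / k) < (1 - r / k) - 1 :=
      Real.log_lt_sub_one_of_pos (by linarith) (by linarith)
    linarith
  set D : ℝ := - Real.log (1 - r ^ k) - r with hD
  have hD0 : 0 < D := by
    rw [hD, hlog]
    nlinarith
  set δ : ℝ := Real.exp (-(r + D / 2)) - (1 - r ^ k) with hδ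
  have hδ0 : 0 < δ := by
    have h1 : 1 - r ^ k = Real.exp (-(r + D)) := by
      rw [hD]
      have : -(r + (-Real.log (1 - r ^ k) - r)) = Real.log (1 - r ^ k) := by ring
      rw [this, Real.exp_log hT0]
    rw [hδ, h1]
    have : Real.exp (-(r + D)) < Real.exp (-(r + D / 2)) := Real.exp_lt_exp.mpr (by linarith)
    linarith
  refine ⟨r / ((D / 2) / (r + D / 2)), δ, hδ0, ?_⟩
  intro l h w W N hW
  have l0 := N.l0
  have q0 : 0 < r / l := div_pos r0 l0
  have q1 : r / l < 1 := by rw [div_lt_one l0]; exact N.ql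
  have hlW : r + D / 2 ≤ - Real.log W := by
    have h1 : W ≤ Real.exp (-(r + D / 2)) := by
      rw [hδ] at hW
      linarith
    have h2 : Real.log W ≤ -(r + D / 2) := by
      rw [← Real.log_exp (-(r + D / 2))]
      exact Real.log_le_log N.W0 h1
    linarith
  have hffq0 : 0 ≤ ff (r / l) := by
    unfold ff
    exact div_nonneg (neg_nonneg.mpr (Real.log_nonpos (by linarith) (by linarith))) q0.le
  have hffq : ff (r / l) ≤ 1 / (1 - r / l) := by
    unfold ff
    rw [div_le_div_iff₀ q0 (by linarith), one_mul]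
    have h1 : Real.log (1 / (1 - r / l)) ≤ 1 / (1 - r / l) - 1 :=
      Real.log_le_sub_one_of_pos (by
        apply div_pos one_pos
        linarith)
    rw [one_div, Real.log_inv] at h1
    have h2 : 0 < 1 - r / l := by linarith
    have h3 := mul_le_mul_of_nonneg_right h1 h2.le
    have h4 : ((1 - r / l)⁻¹ - 1) * (1 - r / l) = r / l := by
      rw [sub_mul, inv_mul_cancel₀ h2.ne']
      ring
    rw [h4] at h3
    exact h3
  have hkh : 1 - k * (1 - r) / h ≤ r := by
    have h1 : (1 - r) ≤ k * (1 - r) / h := by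
      rw [le_div_iff₀ N.h0, mul_comm]
      exact mul_le_mul_of_nonneg_right N.hk (by linarith)
    linarith
  have h5 : r + D / 2 ≤ r * (1 / (1 - r / l)) := by
    calc r + D / 2 ≤ - Real.log W := hlW
      _ ≤ (1 - k * (1 - r) / h) * ff (r / l) := N.TA
      _ ≤ r * ff (r / l) := mul_le_mul_of_nonneg_right hkh hffq0
      _ ≤ r * (1 / (1 - r / l)) := mul_le_mul_of_nonneg_left hffq r0.le
  have h6 : (r + D / 2) * (1 - r / l) ≤ r := by
    have h7 : 0 < 1 - r / l := by linarith
    rw [mul_one_div, le_div_iff₀ h7] at h5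
    exact h5
  have h8 : (D / 2) / (r + D / 2) ≤ r / l := by
    rw [div_le_iff₀ (by linarith)]
    linarith
  have h9 : 0 < (D / 2) / (r + D / 2) := by positivity
  rw [le_div_iff₀ h9]
  calc l * ((D / 2) / (r + D / 2)) ≤ l * (r / l) := mul_le_mul_of_nonneg_left h8 l0.le
    _ = r := by field_simp

end Pool.Agent.Q166.XU
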