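import Pool.Agent.Q113.XU.Stm
import Pool.Agent.Q176.EM.CS

/-!
# Project XU (helper113): job NTL, by helper166

Same proof as `Pool.Agent.Q195.EM.nt`.
-/

set_option autoImplicit false

namespace Pool.Agent.Q166.XU

open Pool.Agent.Q54.EM Pool.Agent.Q113.XU

theorem t_NTL : S_NTL := by
  intro k r l h w1 q a c t e x B N hq ha hc ht he hx hB
  obtain ⟨ap, a2, cl, cu, T1, T2, T3, Tl, r92⟩ := Pool.Agent.Q176.EM.cs k r N.k6 N.rc
  rw [← ha] at ap a2 cl Tl T3
  rw [← hc] at cl cu T3
  have r0 : 0 < r := N.rc.1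
  have r1 : r < 1 := N.rc.2.1
  have k0 : (0 : ℝ) < k := by
    have : (6 : ℝ) ≤ k := by exact_mod_cast N.k6
    linarith
  have l0 : 0 < l := lt_trans r0 N.ql
  have h0 := N.h0
  have W0 : 0 < 1 - r ^ k := by linarith
  have lh : 1 + e = l / h := by rw [he]; ring
  have rca : r = 1 - c * a := by
    rw [hc, ha]
    field_simp
    ring
  have aqt : a = q * (1 - t) := by
    rw [ha, hq, ht]
    field_simp
    ring
  have q0 : 0 < q := by rw [hq]; exact div_pos r0 l0
  have q1 : q < 1 := by rw [hq, div_lt_one l0]; exact N.ql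
  have e0 : 0 ≤ e := by
    rw [he, sub_nonneg, one_le_div h0]
    exact N.hl
  have t1 : t < 1 := by
    rw [ht]
    have := div_pos l0 k0
    linarith
  have xe : x = 1 / (q * (1 + e)) := by
    rw [lh, hx, hq]
    field_simp
  have x0 : 0 < x := by rw [hx]; exact div_pos h0 r0
  have kh : k * (1 - r) / h = c * q * (1 + e) := by
    rw [lh, hc, hq]
    field_simp
  have cx : c ≤ (1 - q) * x := by
    have h1 := N.LH
    rw [← hq] at h1
    have e1 : (1 - q) * (h / r) = (1 - q) * h / r := by ring
    rw [hc, hx, e1]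
    exact div_le_div_of_nonneg_right h1 r0.le
  have xq : x ≤ 1 / q := by
    rw [hx, hq, one_div_div]
    exact div_le_div_of_nonneg_right N.hl r0.le
  have TA : (1 - c * a) * ff a ≤ (1 - c * q * (1 + e)) * ff q := by
    have h1 := N.TA
    rw [kh, ← hq] at h1
    rw [← rca]
    linarith
  have c0 : 0 < c := by linarith
  have axh : a * x = h / k := by
    rw [ha, hx]
    field_simp
  have ax : a * x ≤ 1 := by
    rw [axh, div_le_one k0]
    exact N.hk
  have qxh : q * x = h / l := by
    rw [hq, hx]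
    field_simp
  -- the form of XX
  have s0 : 0 < √(1 - q) := Real.sqrt_pos.mpr (by linarith)
  have ss : √(1 - q) ^ 2 = 1 - q := Real.sq_sqrt (by linarith)
  have sq1 : 1 - √(1 - q) = q / (1 + √(1 - q)) := by
    rw [eq_div_iff (by linarith)]
    linear_combination -ss
  have XX : (1 - q) * q * (t * (1 / (1 - c * a)) - q / ((1 - t) * (1 + √(1 - q)) ^ 2)) ≤
      e * (1 - (1 - q) * q * (1 / (1 - c * a) - q / ((1 - t) * (1 + √(1 - q)) ^ 2))) := by
    have h1 := N.XX
    rw [← hq] at h1
    have h2 := div_le_div_of_nonneg_right h1 h0.le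
    have e1 : (l - h) / h = e := by rw [he]; field_simp
    have e2 : 1 / h = (1 + e) * q / r := by rw [lh, hq]; field_simp
    have e3 : 1 / (k : ℝ) = q * (1 - t) / r := by rw [← aqt, ha]; field_simp
    have e4 : (k : ℝ) / h = (1 + e) / (1 - t) := by
      have : 1 - t = l / k := by rw [ht]; ring
      rw [lh, this]
      field_simp
    have e5 : (1 - q) * ((1 - h / k) - k * (1 - √(1 - q)) ^ 2) / h =
        (1 - q) * ((1 / h - 1 / k) - k / h * (1 - √(1 - q)) ^ 2) := by
      field_simp
    rw [e1, e5, e2, e3, e4, sq1] at h2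
    rw [← rca]
    have t10 : 0 < 1 - t := by linarith
    have e6 : (1 - q) * ((1 + e) * q / r - q * (1 - t) / r - (1 + e) / (1 - t) * (q / (1 + √(1 - q))) ^ 2)
        = (1 - q) * q * (t * (1 / r) - q / ((1 - t) * (1 + √(1 - q)) ^ 2)) +
          e * ((1 - q) * q * (1 / r - q / ((1 - t) * (1 + √(1 - q)) ^ 2))) := by
      field_simp
      ring
    rw [e6] at h2
    linarith
  -- the form of P0
  have P1 : q * B ≤ (1 - q) * (1 - c * a) ∨
      (1 - q) * (1 - a * x) ^ 2 ≤ (1 - c * a) * (1 - q * x) * B := by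
    have h1 := N.P0
    rw [← hq, ← axh] at h1
    have ka : (k : ℝ) * a = r := by rw [ha]; field_simp
    have eB : (1 - a * x) + ((k : ℝ) - 1) * (r - (1 - a * x)) = B := by
      rw [hB, rca]
      have ka' : (k : ℝ) * a = 1 - c * a := by rw [ka, rca]
      linear_combination (x - c) * ka'
    rw [eB] at h1
    have ql : q * l = r := by rw [hq]; field_simp
    rcases h1 with h2 | h3
    · left
      have h4 : q * B ≤ q * ((1 - q) * l) := mul_le_mul_of_nonneg_left h2 q0.le
      have h5 : q * ((1 - q) * l) = (1 - q) * (1 - c * a) := by rw [← rca, ← ql]; ring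
      linarith
    · right
      have e1 : r * (l - h) * B = l * ((1 - c * a) * (1 - q * x) * B) := by
        rw [qxh, ← rca]
        field_simp
      have e2 : (1 - q) * l * (1 - a * x) ^ 2 = l * ((1 - q) * (1 - a * x) ^ 2) := by ring
      rw [e1, e2] at h3
      exact le_of_mul_le_mul_left h3 l0
  have P2 : q * B ≤ (1 - q) * (1 - c * a) ∨ (1 - q) * q * (t + e) ^ 2 ≤ (1 - c * a) * e *
      (q * (1 + e) * (1 - c * (1 - c * a - a)) + (1 - c * a) - 2 * a) := by
    rcases P1 with hp | h1
    · exact Or.inl hp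
    right
    have e1' : 0 < 1 + e := by linarith
    have e1 : a * x * (1 + e) = 1 - t := by rw [xe, aqt]; field_simp
    have e2 : q * x * (1 + e) = 1 := by rw [xe]; field_simp
    have h2 := mul_le_mul_of_nonneg_left h1 (by positivity : 0 ≤ q * (1 + e) ^ 2)
    have e3 : q * (1 + e) ^ 2 * ((1 - q) * (1 - a * x) ^ 2) = (1 - q) * q * (t + e) ^ 2 := by
      have : (1 + e) * (1 - a * x) = t + e := by linear_combination -e1
      rw [← this]
      ring
    have e4 : q * (1 + e) ^ 2 * ((1 - c * a) * (1 - q * x) * B) = (1 - c * a) * e *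
        (q * (1 + e) * (1 - c * (1 - c * a - a)) + (1 - c * a) - 2 * a) := by
      have v1 : (1 + e) * (1 - q * x) = e := by linear_combination -e2
      have v2 : q * (1 + e) * B = q * (1 + e) * (1 - c * (1 - c * a - a)) + (1 - c * a) - 2 * a := by
        rw [hB]
        linear_combination (1 - c * a - 2 * a) * e2
      rw [← v2]
      nth_rewrite 2 [← v1]
      ring
    rw [e3, e4] at h2
    exact h2
  have E3 : (1 + c) / (1 - r ^ k) - 1 / (1 - q) ≤ x := by
    have h1 := N.E3
    have hw := N.w1e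
    rw [← hq] at hw
    have q10 : 0 < 1 - q := by linarith
    have e1 : k * (1 - r) + r * (1 - w1) = r * (1 + c - w1) := by
      rw [hc]
      field_simp
      ring
    have e2 : (1 - r ^ k) * h = r * ((1 - r ^ k) * x) := by rw [hx]; field_simp
    rw [e1, e2] at h1
    have h3 := le_of_mul_le_mul_left h1 r0
    have e3 : (1 + c) / (1 - r ^ k) - 1 / (1 - q) = (1 + c - w1) / (1 - r ^ k) := by
      have : 1 / (1 - q) = w1 / (1 - r ^ k) := by
        rw [eq_div_iff W0.ne', hw]
        field_simp
      rw [this]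
      ring
    rw [e3, div_le_iff₀ W0]
    linarith
  exact ⟨rca, aqt, q0, q1, ap, e0, t1, xe, by rw [kh], cx, xq, ax, TA, XX, P1, P2, E3⟩

end Pool.Agent.Q166.XU
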