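import Pool.Agent.Q113.XU.Stm
import Pool.Agent.Q176.EM.CS
import Pool.Agent.Q223.EM.BXE

/-!
# Project XU (helper113): job ZEL, by helper166

Same proof as `Pool.Agent.Q257.EM.ze`.
-/

set_option autoImplicit false

namespace Pool.Agent.Q166.XU

open Pool.Agent.Q54.EM Pool.Agent.Q113.XU

theorem t_ZEL : S_NTL → S_BPs → S_ZEL := by
  intro hNT hBP k r l h w1 hN hq62
  obtain ⟨q, hq⟩ : ∃ q, q = r / l := ⟨_, rfl⟩
  obtain ⟨a, ha⟩ : ∃ a, a = r / k := ⟨_, rfl⟩
  obtain ⟨c, hc⟩ : ∃ c, c = k * (1 - r) / r := ⟨_, rfl⟩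
  obtain ⟨t, ht⟩ : ∃ t, t = 1 - l / k := ⟨_, rfl⟩
  obtain ⟨e, he⟩ : ∃ e, e = l / h - 1 := ⟨_, rfl⟩
  obtain ⟨x, hx⟩ : ∃ x, x = h / r := ⟨_, rfl⟩
  obtain ⟨B, hB⟩ : ∃ B, B = 1 - c * (1 - c * a - a) + (1 - c * a - 2 * a) * x := ⟨_, rfl⟩
  obtain ⟨n1, n2, n3, n4, n5, n6, n7, n8, n9, n10, n11, n12, n13, n14, n15, n16, n17⟩ :=
    hNT k r l h w1 q a c t e x B hN hq ha hc ht he hx hB
  obtain ⟨c1, c2, c3, c4, c5, c6, c7, c8, c9⟩ := Pool.Agent.Q176.EM.cs k r hN.k6 hN.rc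
  rw [← ha] at c1 c2 c3 c7
  rw [← hc] at c3 c4 c7
  rw [← hq] at hq62
  have hc0 : 458 / 1000 ≤ c := by linarith
  have hr0 : 0 < r := by linarith
  have hr1 : r < 1 := hN.rc.2.1
  have hl0 : 0 < l := lt_trans hr0 hN.ql
  have hql : r = q * l := by
    rw [hq]
    field_simp
  have hS : 0 < 1 - q := by linarith
  have hq686 : q ≤ 686 / 1000 := by
    have h1 : c ≤ (1 - q) * (1 / q) := n10.trans (by gcongr)
    have h2 : c * q ≤ 1 - q := by
      have h3 : c * q ≤ (1 - q) * (1 / q) * q := by gcongr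
      have h4 : (1 - q) * (1 / q) * q = 1 - q := by field_simp
      linarith
    have h3 : 458 / 1000 * q ≤ c * q := by gcongr
    linarith
  refine ⟨?_, ?_⟩
  · by_contra hcon
    push Not at hcon
    rw [← hq] at hcon
    have hk1 : k * (1 - r) = c * r := by
      rw [hc]
      field_simp
    have hh1 : h = x * r := by
      rw [hx]
      field_simp
    have hl1 : l = r / q := by
      rw [hql]
      field_simp
    have hz : l * ((1 - q) * h - k * (1 - r)) = r ^ 2 * ((1 - q) * x - c) / q := by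
      rw [hk1, hh1, hl1]
      field_simp
    rw [hz, lt_div_iff₀ n3] at hcon
    have hx1 : (c + 6 / 100 * q / (1 - c * a) ^ 2) / (1 - q) ≤ x := by
      rw [← n1, div_le_iff₀ hS]
      have h1 : 6 / 100 * q / r ^ 2 ≤ (1 - q) * x - c := by
        rw [div_le_iff₀ (by positivity)]
        linarith
      linarith
    have hx2 : c / (1 - q) ≤ x := by
      rw [div_le_iff₀ hS]
      linarith
    have hpre := hBP q a c x n3 n4 n5.le c2 c3 c4 (Or.inr (Or.inr ⟨hq62.le, hq686, hx2⟩))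
    rw [← hB] at hpre
    have h2 := Pool.Agent.Q223.EM.bxe q a c x hq62.le hq686 n5.le c2 c3 c4 hx1 n12
    rw [← hB] at h2
    rcases n15 with h1 | h1
    · linarith
    · linarith
  · have h1 : 62 / 100 * l < q * l := mul_lt_mul_of_pos_right hq62 hl0
    linarith

end Pool.Agent.Q166.XU
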