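import Pool.Agent.Q113.XU.Stm
import Pool.Agent.Q176.EM.CS

/-!
# Project XU (helper113): job PLSL, by helper166

Same proof as `Pool.Agent.Q223.EM.pls`.
-/

set_option autoImplicit false

namespace Pool.Agent.Q166.XU

open Pool.Agent.Q54.EM Pool.Agent.Q113.XU

/-- the numerical conditions for the special parameters (strict) -/
private lemma cond {q e y d : ℝ} (q0 : 0 < q) (q3 : q ≤ 3 / 10) (e0 : 0 < e) (e2 : e ≤ 2 / 10)
    (hy : 1 - 567 / 1000 * q ≤ y) (hd : d = e / (36 / 10 * e + q)) :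
    0 < d ∧ d ≤ 10 / 36 ∧ q * (1 + e) * d < 1 ∧ (1 - q) * (1 + e) < 6 / 5 * (1 - q * (1 + e) * d) ∧
    d * (e * (1 + e) * (3 - q) + q) < e ∧ 1 < y * (1 - 6 / 5 * d) * (1 + (1 - q) / (1 + e)) ∧
    q < y * (1 - 6 / 5 * d) := by
  have hden : 0 < 36 / 10 * e + q := by linarith
  have hd0 : 0 < d := by rw [hd]; exact div_pos e0 hden
  have hd1 : d ≤ 10 / 36 := by
    rw [hd, div_le_iff₀ hden]; linarith
  have hdm : d * (36 / 10 * e + q) = e := by
    rw [hd]; exact div_mul_cancel₀ _ hden.ne'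
  have hd6 : d ≤ 2 / 10 / (72 / 100 + q) := by
    rw [hd, div_le_div_iff₀ hden (by linarith)]
    nlinarith
  have hy0 : 0 < 1 - 567 / 1000 * q := by linarith
  refine ⟨hd0, hd1, ?_, ?_, ?_, ?_, ?_⟩
  · have h1 : q * (1 + e) ≤ 1 := by nlinarith
    have h2 : q * (1 + e) * d ≤ 1 * d := mul_le_mul_of_nonneg_right h1 hd0.le
    linarith
  · have h1 : q * (1 + e) * d ≤ q * (1 + e) * (10 / 36) :=
      mul_le_mul_of_nonneg_left hd1 (mul_nonneg q0.le (by linarith))
    have h2 : 0 < q * (1 + e) := mul_pos q0 (by linarith)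
    nlinarith
  · have h1 : (1 + e) * (3 - q) < 36 / 10 := by
      have : (1 + e) * (3 - q) ≤ 12 / 10 * (3 - q) :=
        mul_le_mul_of_nonneg_right (by linarith) (by linarith)
      linarith
    have h2 : e * ((1 + e) * (3 - q)) < e * (36 / 10) := mul_lt_mul_of_pos_left h1 e0
    have h3 : d * (e * (1 + e) * (3 - q) + q) < d * (36 / 10 * e + q) :=
      mul_lt_mul_of_pos_left (by linarith) hd0
    linarith
  · have h1 : 1 + (1 - q) / (12 / 10) ≤ 1 + (1 - q) / (1 + e) := by
      have := div_le_div_of_nonneg_left (by linarith : 0 ≤ 1 - q) (by linarith : 0 < 1 + e)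
        (by linarith : 1 + e ≤ 12 / 10)
      linarith
    have h2 : (48 / 100 + q) / (72 / 100 + q) ≤ 1 - 6 / 5 * d := by
      have : (48 / 100 + q) / (72 / 100 + q) = 1 - 6 / 5 * (2 / 10 / (72 / 100 + q)) := by
        have : (72 / 100 + q) ≠ 0 := by linarith
        field_simp
        ring
      rw [this]; linarith
    have h3 : 0 < (48 / 100 + q) / (72 / 100 + q) := div_pos (by linarith) (by linarith)
    have h4 : (1 - 567 / 1000 * q) * ((48 / 100 + q) / (72 / 100 + q)) ≤ y * (1 - 6 / 5 * d) :=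
      mul_le_mul hy h2 h3.le (by linarith)
    have h5 : (1 - 567 / 1000 * q) * ((48 / 100 + q) / (72 / 100 + q)) * (1 + (1 - q) / (12 / 10)) ≤
        y * (1 - 6 / 5 * d) * (1 + (1 - q) / (1 + e)) := by
      apply mul_le_mul h4 h1 (by linarith)
      exact le_trans (mul_nonneg hy0.le h3.le) h4
    refine lt_of_lt_of_le ?_ h5
    have h6 : (1 - 567 / 1000 * q) * ((48 / 100 + q) / (72 / 100 + q)) * (1 + (1 - q) / (12 / 10)) =
        (1 - 567 / 1000 * q) * (48 / 100 + q) * (22 / 10 - q) / (12 / 10 * (72 / 100 + q)) := by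
      have : (72 / 100 + q) ≠ 0 := by linarith
      field_simp
      ring
    rw [h6, lt_div_iff₀ (by linarith)]
    have h7 : 0 ≤ (3 / 10 - q) * (q + 1) := mul_nonneg (by linarith) (by linarith)
    have h8 : 0 ≤ (3 / 10 - q) * q := mul_nonneg (by linarith) (by linarith)
    have h9 : 0 ≤ (3 / 10 - q) * q * q := mul_nonneg h8 q0.le
    nlinarith
  · have h1 : 2 / 3 ≤ 1 - 6 / 5 * d := by linarith
    have h2 : (1 - 567 / 1000 * q) * (2 / 3) ≤ y * (1 - 6 / 5 * d) :=
      mul_le_mul hy h1 (by norm_num) (by linarith)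
    linarith

theorem t_PLSL : S_NTL → S_PLSL := by
  intro nt k r l h w1 q a c t e N hq ha hc ht he q3 e2
  obtain ⟨n1, n2, q0, q1, a0, e0, t1, hx, hy, -, -, -, hTA, -⟩ :=
    nt k r l h w1 q a c t e (h / r) (1 - c * (1 - c * a - a) + (1 - c * a - 2 * a) * (h / r))
      N hq ha hc ht he rfl rfl
  obtain ⟨-, -, -, c2, -, -, -, hlog, -⟩ := Pool.Agent.Q176.EM.cs k r N.k6 N.rc
  rw [← hc] at c2
  rw [← ha] at hlog
  rcases e0.eq_or_lt with e00 | e0
  · have : Gp q e = 0 := by rw [← e00, Gp]; ring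
    rw [this, sub_zero]
    exact hTA
  have hle : l / h = 1 + e := by rw [he]; ring
  have hc0 : 0 ≤ c := by
    rw [hc]
    have := N.rc.1
    have := N.rc.2.1
    exact div_nonneg (mul_nonneg (Nat.cast_nonneg k) (by linarith)) (by linarith)
  set y : ℝ := 1 - c * q * (1 + e) with hydef
  have hy1 : 1 - 567 / 1000 * q ≤ y := by
    have h1 : c * (1 + e) ≤ 4724 / 10000 * (12 / 10) :=
      mul_le_mul c2 (by linarith) (by linarith) (by norm_num)
    have h2 : q * (c * (1 + e)) ≤ q * (4724 / 10000 * (12 / 10)) :=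
      mul_le_mul_of_nonneg_left h1 q0.le
    rw [hydef]
    nlinarith
  set d : ℝ := e / (36 / 10 * e + q) with hd
  obtain ⟨d0, d1, k1, k2, k3, k4, k5⟩ := cond q0 q3 e0 e2 hy1 hd
  have PL := N.PL d (6 / 5) d0 (by linarith)
  rw [← hq, hle, hy] at PL
  have e1 : 1 + e - 1 = e := by ring
  rw [e1] at PL
  have P := PL (by linarith) k1 k2 (by
    have : d * (e * (1 + e) * (3 - q) + q) < e := k3
    exact this) k4 k5
  have hW : (1 - c * a) * ff a = - Real.log (1 - r ^ k) := by
    rw [← n1, ← hlog]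
  have hG : Gp q e ≤ (1 - q) * y * e * d / 2 * (y * (1 - 6 / 5 * d / 3) - q) := by
    rw [Gp, ← hd]
    have hz : 0 < 1 - 567 / 1000 * q := by linarith
    have h1 : (1 - 567 / 1000 * q) * (1 - 4 / 10 * d) - q ≤ y * (1 - 6 / 5 * d / 3) - q := by
      have : (1 - 567 / 1000 * q) * (1 - 4 / 10 * d) ≤ y * (1 - 4 / 10 * d) :=
        mul_le_mul_of_nonneg_right hy1 (by linarith)
      linarith
    have h2 : 0 ≤ (1 - 567 / 1000 * q) * (1 - 4 / 10 * d) - q := by
      have : (1 - 567 / 1000 * q) * (8 / 9) ≤ (1 - 567 / 1000 * q) * (1 - 4 / 10 * d) :=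
        mul_le_mul_of_nonneg_left (by linarith) hz.le
      linarith
    have h3 : (1 - q) * (1 - 567 / 1000 * q) * e * d / 2 ≤ (1 - q) * y * e * d / 2 := by
      have : (1 - q) * (1 - 567 / 1000 * q) ≤ (1 - q) * y :=
        mul_le_mul_of_nonneg_left hy1 (by linarith)
      have h4 : 0 ≤ e * d / 2 := by positivity
      have := mul_le_mul_of_nonneg_right this h4
      linarith
    have h5 : 0 ≤ (1 - q) * y * e * d / 2 := by
      have : 0 ≤ (1 - q) * y := mul_nonneg (by linarith) (by linarith)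
      positivity
    exact mul_le_mul h3 h1 h2 h5
  linarith

end Pool.Agent.Q166.XU
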